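import Mathlib

set_option autoImplicit false

namespace Pool.Agent.Lib.CG7

theorem exists_idem {M : Type} [Monoid M] [Finite M] (x : M) :
    ∃ w : ℕ, 5 ≤ w ∧ ∀ i, 1 ≤ i → x ^ (w * i) = x ^ w := by
  obtain ⟨a, b, hne, h⟩ := Finite.exists_ne_map_eq_of_infinite (fun n : ℕ => x ^ n)
  wlog hab : a < b generalizing a b
  · exact this b a hne.symm h.symm (by omega)
  obtain ⟨p, rfl⟩ : ∃ p, b = a + (p + 1) := ⟨b - a - 1, by omega⟩
  have h1 : ∀ t, x ^ (a + (p + 1) * t) = x ^ a := by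
    intro t
    induction t with
    | zero => simp
    | succ t ih =>
      rw [mul_add, mul_one, add_comm ((p + 1) * t), ← add_assoc, pow_add, ← h, ← pow_add, ih]
  refine ⟨(p + 1) * (a + 5), by nlinarith, fun i hi => ?_⟩
  obtain ⟨j, rfl⟩ : ∃ j, i = j + 1 := ⟨i - 1, by omega⟩
  have e1 : (p + 1) * (a + 5) * (j + 1) = a + (p + 1) * ((a + 5) * j) + (p * (a + 5) + 5) := by ring
  have e2 : (p + 1) * (a + 5) = a + (p * (a + 5) + 5) := by ring
  rw [e1, pow_add, h1, ← pow_add, ← e2]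

section
variable {σ : Type} (M : DFA ℕ σ) (k : ℕ)

/-- Acceptance of the digits of `n` from the state `s`. -/
def acc (s : σ) (n : ℕ) : Prop := M.evalFrom s (Nat.digits k n) ∈ M.accept

variable {k}

theorem acc_step (hk : 2 ≤ k) (s : σ) (x y : ℕ) (hx : x < k) (h : x ≠ 0 ∨ y ≠ 0) :
    acc M k s (x + k * y) ↔ acc M k (M.step s x) y := by
  unfold acc
  rw [Nat.digits_add k hk x y hx h]
  rfl

theorem acc_low (hk : 2 ≤ k) (L : ℕ) : ∀ (s : σ) (r : ℕ), r < k ^ L →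
    ∃ s', ∀ m, m ≠ 0 → (acc M k s (r + k ^ L * m) ↔ acc M k s' m) := by
  induction L with
  | zero =>
    intro s r hr
    refine ⟨s, fun m _ => ?_⟩
    have : r = 0 := by simpa using hr
    simp [this]
  | succ L ih =>
    intro s r hr
    obtain ⟨s', hs'⟩ := ih (M.step s (r % k)) (r / k)
      (Nat.div_lt_of_lt_mul (by rwa [pow_succ'] at hr))
    refine ⟨s', fun m hm => ?_⟩
    have e : r + k ^ (L + 1) * m = r % k + k * (r / k + k ^ L * m) := by
      rw [mul_add, ← add_assoc, Nat.mod_add_div, pow_succ', mul_assoc]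
    have hp : 0 < k ^ L * m := Nat.mul_pos (by positivity) (Nat.pos_of_ne_zero hm)
    rw [e, acc_step M hk _ _ _ (Nat.mod_lt _ (by omega)) (Or.inr (Nat.add_pos_right _ hp).ne'),
      hs' m hm]

theorem acc_zero (hk : 2 ≤ k) (j : ℕ) : ∀ (s : σ) (m : ℕ), m ≠ 0 →
    (acc M k s (k ^ j * m) ↔ acc M k ((fun t => M.step t 0)^[j] s) m) := by
  induction j with
  | zero => intro s m _; simp
  | succ j ih =>
    intro s m hm
    have hp : 0 < k ^ j * m := Nat.mul_pos (by positivity) (Nat.pos_of_ne_zero hm)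
    rw [Function.iterate_succ_apply, ← ih _ m hm, ← acc_step M hk s 0 _ (by omega)
      (Or.inr (by omega)), zero_add, pow_succ', mul_assoc]

theorem acc_top (hk : 2 ≤ k) (j : ℕ) : ∀ (s : σ) (m : ℕ),
    (acc M k s (k ^ j * (m + 1) - 1) ↔ acc M k ((fun t => M.step t (k - 1))^[j] s) m) := by
  induction j with
  | zero => intro s m; simp
  | succ j ih =>
    intro s m
    have hp : 0 < k ^ j * (m + 1) := by positivity
    rw [Function.iterate_succ_apply, ← ih _ m, ← acc_step M hk s (k - 1) _ (by omega)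
      (Or.inl (by omega)), pow_succ', mul_assoc]
    obtain ⟨y, hy⟩ : ∃ y, k ^ j * (m + 1) = y + 1 := ⟨_, (Nat.succ_pred_eq_of_pos hp).symm⟩
    rw [hy, Nat.add_sub_cancel, mul_add, mul_one]
    have e : k * y + k - 1 = k - 1 + k * y := by omega
    rw [e]

theorem gap [Finite σ] (hk : 2 ≤ k) : ∃ w : ℕ, 5 ≤ w ∧ ∀ (L : ℕ) (r n : ℤ), |r| < (k : ℤ) ^ L →
    0 < n → ∀ i i', 1 ≤ i → 1 ≤ i' →
    (acc M k M.start (r + (k : ℤ) ^ (L + w * i) * n).toNat ↔
      acc M k M.start (r + (k : ℤ) ^ (L + w * i') * n).toNat) := by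
  have : Finite (Function.End σ) := inferInstanceAs (Finite (σ → σ))
  obtain ⟨w, hw, h⟩ := exists_idem (M := Function.End σ × Function.End σ)
    ((fun t => M.step t 0), (fun t => M.step t (k - 1)))
  have h0 : ∀ i, 1 ≤ i → (fun t => M.step t 0)^[w * i] = (fun t => M.step t 0)^[w] :=
    fun i hi => congrArg Prod.fst (h i hi)
  have h1 : ∀ i, 1 ≤ i → (fun t => M.step t (k - 1))^[w * i] = (fun t => M.step t (k - 1))^[w] :=
    fun i hi => congrArg Prod.snd (h i hi)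
  refine ⟨w, hw, fun L r n hr hn i i' hi hi' => ?_⟩
  obtain ⟨m, rfl⟩ : ∃ m : ℕ, n = (m + 1 : ℕ) := ⟨(n - 1).toNat, by omega⟩
  rw [abs_lt] at hr
  rcases le_or_gt 0 r with h2 | h2
  · lift r to ℕ using h2
    obtain ⟨s', hs'⟩ := acc_low M hk L M.start r (by exact_mod_cast hr.2)
    have key : ∀ i, 1 ≤ i → (acc M k M.start ((r : ℤ) + (k : ℤ) ^ (L + w * i) * (m + 1 : ℕ)).toNat
        ↔ acc M k ((fun t => M.step t 0)^[w] s') (m + 1)) := by
      intro i hi
      have e : ((r : ℤ) + (k : ℤ) ^ (L + w * i) * (m + 1 : ℕ))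
          = ((r + k ^ L * (k ^ (w * i) * (m + 1)) : ℕ) : ℤ) := by push_cast; ring
      rw [e, Int.toNat_natCast, hs' _ (by positivity), acc_zero M hk _ _ _ (by omega), h0 i hi]
    rw [key i hi, key i' hi']
  · obtain ⟨q, hq⟩ : ∃ q : ℕ, (q : ℤ) = (k : ℤ) ^ L + r := ⟨((k : ℤ) ^ L + r).toNat, by omega⟩
    obtain ⟨s', hs'⟩ := acc_low M hk L M.start q (by
      have : (q : ℤ) < (k : ℤ) ^ L := by omega
      exact_mod_cast this)
    have key : ∀ i, 1 ≤ i → (acc M k M.start (r + (k : ℤ) ^ (L + w * i) * (m + 1 : ℕ)).toNat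
        ↔ acc M k ((fun t => M.step t (k - 1))^[w] s') m) := by
      intro i hi
      have h3 : 1 < k ^ (w * i) := Nat.one_lt_pow (by nlinarith) hk
      have h4 : 1 < k ^ (w * i) * (m + 1) := by nlinarith
      have e : (r + (k : ℤ) ^ (L + w * i) * (m + 1 : ℕ))
          = ((q + k ^ L * (k ^ (w * i) * (m + 1) - 1) : ℕ) : ℤ) := by
        rw [Nat.cast_add q, Nat.cast_mul, Nat.cast_sub h4.le, hq]
        push_cast
        ring
      rw [e, Int.toNat_natCast, hs' _ (by omega), acc_top M hk, h1 i hi]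
    rw [key i hi, key i' hi']

end

/-- Area of a rational right triangle. -/
def Cg (A : ℚ) : Prop :=
  ∃ a b c : ℚ, 0 < a ∧ 0 < b ∧ 0 < c ∧ a ^ 2 + b ^ 2 = c ^ 2 ∧ a * b / 2 = A

theorem Cg.mul_sq {A : ℚ} (h : Cg A) (m : ℚ) (hm : m ≠ 0) : Cg (A * m ^ 2) := by
  obtain ⟨a, b, c, ha, hb, hc, h1, h2⟩ := h
  have h3 := abs_pos.mpr hm
  refine ⟨a * |m|, b * |m|, c * |m|, by positivity, by positivity, by positivity, ?_, ?_⟩
  · rw [mul_pow, mul_pow, mul_pow, ← add_mul, h1]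
  · rw [← h2, ← sq_abs m]; ring

theorem cg_sq (A m : ℚ) (hm : m ≠ 0) : Cg (A * m ^ 2) ↔ Cg A := by
  refine ⟨fun h => ?_, fun h => h.mul_sq m hm⟩
  have := h.mul_sq m⁻¹ (inv_ne_zero hm)
  rwa [mul_assoc, ← mul_pow, mul_inv_cancel₀ hm, one_pow, mul_one] at this

theorem not_cg_two : ¬ Cg 2 := by
  rintro ⟨a, b, c, ha, hb, -, h1, h2⟩
  have hp : a.num ≠ 0 := (Rat.num_pos.mpr ha).ne'
  have hq : (a.den : ℚ) ≠ 0 := by exact_mod_cast a.den_nz
  have e1 : (a.num : ℚ) = a * a.den := (Rat.mul_den_eq_num a).symm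
  have h3 : IsSquare (((a.num ^ 4 + (2 * a.den) ^ 4 : ℤ)) : ℚ) := by
    refine ⟨c * a * a.den ^ 2, ?_⟩
    push_cast
    rw [e1]
    have : a * b = 4 := by linarith
    linear_combination (a ^ 2 * a.den ^ 4) * h1 - (a.den ^ 4 * (a * b + 4)) * this
  obtain ⟨z, hz⟩ := Rat.isSquare_intCast_iff.mp h3
  exact not_fermat_42 hp (mul_ne_zero two_ne_zero (by exact_mod_cast a.den_nz))
    (hz.trans (sq z).symm)

theorem cg_quartic (u : ℚ) (hu : 1 < u) : Cg (2 * (1 + u ^ 4)) := by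
  have h1 : 1 < u ^ 4 := one_lt_pow₀ hu (by norm_num)
  have h2 : 0 < u ^ 4 - 1 := by linarith
  rw [← cg_sq _ (u * (u ^ 4 - 1)) (by positivity)]
  refine ⟨(u ^ 4 - 1) ^ 2, 4 * u ^ 2 * (u ^ 4 + 1), (u ^ 4 + 1) ^ 2 + 4 * u ^ 4, by positivity,
    by positivity, by positivity, by ring, by ring⟩

theorem chain (S : ℤ → Prop) (u : ℤ) (hu : 32 ≤ u)
    (hg : ∀ (d e e' : ℕ) (r n : ℤ), |r| < 32 * (u ^ 4) ^ d → 0 < n → d < e → d < e' →
      (S (r + (u ^ 4) ^ e * n) ↔ S (r + (u ^ 4) ^ e' * n)))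
    (hS : ∀ c0 c1 c2 c3 c4 c5 : ℤ, |c0| ≤ 6 → |c1| ≤ 6 → |c2| ≤ 6 → |c3| ≤ 6 → |c4| ≤ 6 →
      |c5| ≤ 6 → ∀ n : ℤ, n = c0 + c1 * u ^ 4 + c2 * (u ^ 4) ^ 2 + c3 * (u ^ 4) ^ 3 +
        c4 * (u ^ 4) ^ 4 + c5 * (u ^ 4) ^ 5 → u ^ 4 ≤ n → (S n ↔ Cg n)) : False := by
  have hq := cg_quartic u (by exact_mod_cast (by omega : (1 : ℤ) < u))
  have hT : 32 ≤ u ^ 4 := hu.trans (le_self_pow₀ (by omega) (by norm_num))
  have hc : ((u : ℚ) ^ 4) = ((u ^ 4 : ℤ) : ℚ) := by push_cast; ring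
  rw [hc] at hq
  generalize u ^ 4 = T at *
  have hTq : (32 : ℚ) ≤ T := by exact_mod_cast hT
  have n1 : (1 - T : ℚ) ≠ 0 := by linarith [hTq] |> fun (h : (1 - T : ℚ) < 0) => h.ne
  have n2 : (1 + T : ℚ) ≠ 0 := by positivity
  have p2 : 32 * T ≤ T ^ 2 := by nlinarith
  have p3 : 32 * T ^ 2 ≤ T ^ 3 := by nlinarith
  have p4 : 32 * T ^ 3 ≤ T ^ 4 := by nlinarith
  have p5 : 32 * T ^ 4 ≤ T ^ 5 := by nlinarith
  have tr : ∀ {x y : ℚ}, x = y → (Cg x ↔ Cg y) := fun h => by rw [h]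
  have mv : ∀ (d e e' : ℕ) (r n : ℤ), |r| < 32 * T ^ d → 0 < n → d < e → d < e' →
      (S (r + T ^ e * n) ↔ Cg ((r + T ^ e * n : ℤ) : ℚ)) →
      (S (r + T ^ e' * n) ↔ Cg ((r + T ^ e' * n : ℤ) : ℚ)) →
      (Cg ((r : ℚ) + (T : ℚ) ^ e * n) ↔ Cg ((r : ℚ) + (T : ℚ) ^ e' * n)) := by
    intro d e e' r n h1 h2 h3 h4 h5 h6
    have := hg d e e' r n h1 h2 h3 h4
    rw [h5, h6] at this
    exact_mod_cast this
  have s1 := mv 1 2 3 (2 + 4 * T) 2 (by rw [abs_lt]; constructor <;> linarith) two_pos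
    (by omega) (by omega)
    (hS 2 4 2 0 0 0 (by decide) (by decide) (by decide) (by decide) (by decide) (by decide) _
      (by ring) (by linarith))
    (hS 2 4 0 2 0 0 (by decide) (by decide) (by decide) (by decide) (by decide) (by decide) _
      (by ring) (by linarith))
  have s2 := mv 0 2 1 2 (-6 + 6 * T - 4 * T ^ 2 + 2 * T ^ 3) (by norm_num) (by linarith)
    (by omega) (by omega)
    (hS 2 0 (-6) 6 (-4) 2 (by decide) (by decide) (by decide) (by decide) (by decide) (by decide) _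
      (by ring) (by linarith))
    (hS 2 (-6) 6 (-4) 2 0 (by decide) (by decide) (by decide) (by decide) (by decide) (by decide) _
      (by ring) (by linarith))
  have s3 := mv 2 3 4 (2 - 6 * T + 6 * T ^ 2) (-4 + 2 * T)
    (by rw [abs_lt]; constructor <;> linarith) (by linarith) (by omega) (by omega)
    (hS 2 (-6) 6 (-4) 2 0 (by decide) (by decide) (by decide) (by decide) (by decide) (by decide) _
      (by ring) (by linarith))
    (hS 2 (-6) 6 0 (-4) 2 (by decide) (by decide) (by decide) (by decide) (by decide) (by decide) _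
      (by ring) (by linarith))
  have s4 := mv 1 3 2 (2 - 2 * T) 2 (by rw [abs_lt]; constructor <;> linarith) two_pos
    (by omega) (by omega)
    (hS 2 (-2) 0 2 0 0 (by decide) (by decide) (by decide) (by decide) (by decide) (by decide) _
      (by ring) (by linarith))
    (hS 2 (-2) 2 0 0 0 (by decide) (by decide) (by decide) (by decide) (by decide) (by decide) _
      (by ring) (by linarith))
  have s5 := mv 1 3 2 (2 + 2 * T) (2 + 2 * T) (by rw [abs_lt]; constructor <;> linarith)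
    (by linarith) (by omega) (by omega)
    (hS 2 2 0 2 2 0 (by decide) (by decide) (by decide) (by decide) (by decide) (by decide) _
      (by ring) (by linarith))
    (hS 2 2 2 2 0 0 (by decide) (by decide) (by decide) (by decide) (by decide) (by decide) _
      (by ring) (by linarith))
  have s6 := mv 1 4 2 (2 - 2 * T) (-2 + 2 * T) (by rw [abs_lt]; constructor <;> linarith)
    (by linarith) (by omega) (by omega)
    (hS 2 (-2) 0 0 (-2) 2 (by decide) (by decide) (by decide) (by decide) (by decide) (by decide) _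
      (by ring) (by linarith))
    (hS 2 (-2) (-2) 2 0 0 (by decide) (by decide) (by decide) (by decide) (by decide) (by decide) _
      (by ring) (by linarith))
  push_cast at s1 s2 s3 s4 s5 s6
  apply not_cg_two
  have a7 : Cg (2 - 2 * T + (T : ℚ) ^ 2 * (-2 + 2 * T)) :=
    (tr (by ring)).mp (hq.mul_sq _ n1)
  have a6 : Cg (2 + 2 * T + (T : ℚ) ^ 2 * (2 + 2 * T)) :=
    (cg_sq _ _ n1).mp ((tr (by ring)).mp (s6.mpr a7))
  have a5 : Cg (2 - 2 * T + (T : ℚ) ^ 2 * 2) :=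
    (cg_sq _ _ n2).mp ((tr (by ring)).mp (s5.mpr a6))
  have a4 : Cg (2 - 6 * T + 6 * (T : ℚ) ^ 2 + (T : ℚ) ^ 4 * (-4 + 2 * T)) :=
    (tr (by ring)).mp ((s4.mpr a5).mul_sq _ n1)
  have a3 := s2.mpr ((tr (by ring)).mp (s3.mpr a4))
  have a2 : Cg (2 + 4 * T + (T : ℚ) ^ 3 * 2) := (cg_sq _ _ n1).mp ((tr (by ring)).mp a3)
  exact (cg_sq _ _ n2).mp ((tr (by ring)).mp (s1.mpr a2))

theorem main (k : ℕ) (hk : 2 ≤ k) (L : Language ℕ) (hL : L.IsRegular) (B : ℕ) :
    ∃ n : ℕ, B < n ∧ (∃ (N : ℕ) (c : Fin 6 → ℤ), (∀ j, |c j| ≤ 6) ∧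
      (n : ℤ) = ∑ j, c j * ((k : ℤ) ^ N) ^ (j : ℕ)) ∧ ¬ (Nat.digits k n ∈ L ↔ Cg n) := by
  obtain ⟨σ, _, M, rfl⟩ := hL
  obtain ⟨w, hw, hg⟩ := gap M hk
  by_contra hc
  push Not at hc
  have hk' : (2 : ℤ) ≤ k := by exact_mod_cast hk
  have h32 : (32 : ℤ) ≤ (k : ℤ) ^ w :=
    le_trans (by norm_num) ((pow_le_pow_left₀ (by norm_num) hk' 5).trans
      (pow_le_pow_right₀ (by omega) hw))
  refine chain (fun z => acc M k M.start z.toNat) ((k : ℤ) ^ (w * (B + 1)))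
    (h32.trans (pow_le_pow_right₀ (by omega) (by nlinarith))) ?_ ?_
  · intro d e e' r n hr hn he he'
    obtain ⟨a, rfl⟩ : ∃ a, e = d + 1 + a := ⟨e - d - 1, by omega⟩
    obtain ⟨a', rfl⟩ : ∃ a, e' = d + 1 + a := ⟨e' - d - 1, by omega⟩
    have := hg (w * (B + 1) * 4 * d + w) r n (by
      rw [pow_add, pow_mul, pow_mul]
      refine hr.trans_le ?_
      rw [mul_comm]
      exact mul_le_mul_of_nonneg_left h32 (by positivity)) hn
      (4 * (B + 1) * a + 4 * B + 3) (4 * (B + 1) * a' + 4 * B + 3) (by omega) (by omega)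
    simp only [← pow_mul]
    convert this using 6 <;> ring
  · intro c0 c1 c2 c3 c4 c5 h0 h1 h2 h3 h4 h5 n hn hle
    have hB : (B : ℤ) < n := by
      refine lt_of_lt_of_le ?_ hle
      rw [← pow_mul]
      have := Nat.lt_pow_self (n := w * (B + 1) * 4) (show 1 < k by omega)
      have h7 : B < k ^ (w * (B + 1) * 4) := by nlinarith
      exact_mod_cast h7
    lift n to ℕ using (by omega)
    refine hc n (by exact_mod_cast hB) ⟨w * (B + 1) * 4, ![c0, c1, c2, c3, c4, c5], ?_, ?_⟩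
    · intro j
      fin_cases j <;> assumption
    · rw [hn, pow_mul (k : ℤ) (w * (B + 1)) 4]
      simp [Fin.sum_univ_six]

end Pool.Agent.Lib.CG7
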